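import Mathlib

/-!
MP_3c55d5_nt, Q1 (near-coincidences of `π^n + (√5)^n` and `7^m + e^m`).

We prove, without any hypothesis, the asserted asymptotic formula with error term `O(log x)` for
all pairs `(n, m)` with `n` below a tower of exponentials, each additional storey of the tower
costing at most a bounded number of pairs.  The main ingredient is a gap principle: two different
pairs which are counted although `n` is larger than a constant times `log x` have exponentially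
far first coordinates.
-/

namespace Pool.Agent.Results.MP_3c55d5_nt.TruncatedAsymptotic

open Real

/-- The pairs `(n, m)` of positive integers with `|π^n + (√5)^n - 7^m - e^m| ≤ x`
(so `N(x)` is the number of elements of `pairs x`). -/
def pairs (x : ℝ) : Set (ℕ × ℕ) :=
  {p | 1 ≤ p.1 ∧ 1 ≤ p.2 ∧ |π ^ p.1 + (√5) ^ p.1 - 7 ^ p.2 - (exp 1) ^ p.2| ≤ x}

/-- The tower `1, 2, 4, 16, 65536, ...` of iterated powers of two. -/
def tower : ℕ → ℕ
  | 0 => 1
  | k + 1 => 2 ^ tower k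

/-! ### numerical facts -/

lemma sqrt5_gt : (2.236 : ℝ) < √5 := by
  rw [Real.lt_sqrt (by norm_num)]; norm_num

lemma sqrt5_lt : √5 < (2.2361 : ℝ) := by
  rw [Real.sqrt_lt' (by norm_num)]; norm_num

lemma exp1_pow5_le : (exp 1 : ℝ) ^ 5 ≤ 7 ^ 3 := by
  have h := Real.exp_one_lt_d9
  have h0 : (0:ℝ) ≤ exp 1 := (Real.exp_pos 1).le
  calc (exp 1 : ℝ) ^ 5 ≤ (2.7182818286 : ℝ) ^ 5 := pow_le_pow_left₀ h0 h.le 5
    _ ≤ 7 ^ 3 := by norm_num

lemma pi_pow3_le : (π : ℝ) ^ 3 ≤ 32 := by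
  have h := Real.pi_lt_d2
  have h0 : (0:ℝ) ≤ π := Real.pi_pos.le
  calc (π : ℝ) ^ 3 ≤ (3.15 : ℝ) ^ 3 := pow_le_pow_left₀ h0 h.le 3
    _ ≤ 32 := by norm_num

lemma sqrt5_pow5_ge : (55.8 : ℝ) ≤ (√5) ^ 5 := by
  calc (55.8 : ℝ) ≤ (2.236 : ℝ) ^ 5 := by norm_num
    _ ≤ (√5) ^ 5 := pow_le_pow_left₀ (by norm_num) sqrt5_gt.le 5

/-- the ratio `r = √5 / π` -/
noncomputable def r : ℝ := √5 / π

lemma r_pos : 0 < r := by
  unfold r
  have := Real.pi_pos
  have h5 : (0:ℝ) < √5 := Real.sqrt_pos.mpr (by norm_num)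
  positivity

lemma r_lt : r < 0.712 := by
  unfold r
  rw [div_lt_iff₀ Real.pi_pos]
  have h1 := Real.pi_gt_d4
  have h2 := sqrt5_lt
  nlinarith

lemma r_lt' : r < 5 / 7 := by
  unfold r
  rw [div_lt_iff₀ Real.pi_pos]
  have h1 := Real.pi_gt_d4
  have h2 := sqrt5_lt
  nlinarith

lemma r_pow (n : ℕ) : r ^ n = (√5) ^ n / π ^ n := by
  unfold r; rw [div_pow]

/-! ### the two-sided estimate for `m log 7 - n log π` -/

lemma key (n m : ℕ) (x : ℝ) (hn : 40 ≤ n) (hx : 20 * x ≤ (√5) ^ n)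
    (h : |π ^ n + (√5) ^ n - 7 ^ m - (exp 1) ^ m| ≤ x) :
    0.85 * r ^ n ≤ m * log 7 - n * log π ∧ m * log 7 - n * log π ≤ 1.05 * r ^ n := by
  set P : ℝ := π ^ n with hP
  set S : ℝ := (√5) ^ n with hS
  set M : ℝ := (7:ℝ) ^ m with hM
  set E : ℝ := (exp 1) ^ m with hE
  have hP0 : 0 < P := pow_pos Real.pi_pos n
  have h50 : (0:ℝ) < √5 := Real.sqrt_pos.mpr (by norm_num)
  have hS0 : 0 < S := pow_pos h50 n
  have hM0 : 0 < M := by positivity
  have hE0 : 0 < E := pow_pos (Real.exp_pos 1) m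
  have hSP : S ≤ P := by
    apply pow_le_pow_left₀ h50.le
    have := sqrt5_lt
    have := Real.pi_gt_three
    linarith
  have habs := abs_le.mp h
  have hM1 : M ≤ P + 1.05 * S := by
    have := habs.1; linarith
  have hM2 : M ≤ 3 * P := by linarith
  -- bound on E
  have hE5 : E ^ 5 ≤ M ^ 3 := by
    rw [hE, hM, ← pow_mul, ← pow_mul, mul_comm m 5, mul_comm m 3, pow_mul, pow_mul]
    exact pow_le_pow_left₀ (by positivity) exp1_pow5_le m
  have hP3 : P ^ 3 ≤ 32 ^ n := by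
    rw [hP, ← pow_mul, mul_comm n 3, pow_mul]
    exact pow_le_pow_left₀ (by positivity) pi_pow3_le n
  have hS5 : (55.8:ℝ) ^ n ≤ S ^ 5 := by
    rw [hS, ← pow_mul, mul_comm n 5, pow_mul]
    exact pow_le_pow_left₀ (by positivity) sqrt5_pow5_ge n
  have hM3 : M ^ 3 ≤ 27 * 32 ^ n := by
    calc M ^ 3 ≤ (3 * P) ^ 3 := pow_le_pow_left₀ hM0.le hM2 3
      _ = 27 * P ^ 3 := by ring
      _ ≤ 27 * 32 ^ n := by linarith
  have hbig : (86400000 : ℝ) * 32 ^ n ≤ 55.8 ^ n := by
    have h1 : (86400000 : ℝ) ≤ (1.74:ℝ) ^ n := by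
      calc (86400000 : ℝ) ≤ (1.74:ℝ) ^ 40 := by norm_num
        _ ≤ (1.74:ℝ) ^ n := pow_le_pow_right₀ (by norm_num) hn
    calc (86400000 : ℝ) * 32 ^ n ≤ (1.74:ℝ) ^ n * 32 ^ n := by gcongr
      _ = (1.74 * 32) ^ n := by rw [mul_pow]
      _ ≤ 55.8 ^ n := pow_le_pow_left₀ (by norm_num) (by norm_num) n
  have hES : 20 * E ≤ S := by
    have h1 : (20 * E) ^ 5 ≤ S ^ 5 := by
      calc (20 * E) ^ 5 = 3200000 * E ^ 5 := by ring
        _ ≤ 3200000 * (27 * 32 ^ n) := by linarith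
        _ = 86400000 * 32 ^ n := by ring
        _ ≤ S ^ 5 := by linarith
    exact le_of_pow_le_pow_left₀ (by norm_num) hS0.le h1
  have hM4 : P + 0.9 * S ≤ M := by
    have := habs.2; linarith
  have hlog : m * log 7 - n * log π = log (M / P) := by
    rw [Real.log_div hM0.ne' hP0.ne', hM, hP, Real.log_pow, Real.log_pow]
  have hrn : r ^ n = S / P := r_pow n
  have hr0 : 0 < r ^ n := pow_pos r_pos n
  have hrsmall : r ^ n ≤ 0.05 := by
    calc r ^ n ≤ r ^ 40 := pow_le_pow_of_le_one r_pos.le (by have := r_lt; linarith) hn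
      _ ≤ 0.712 ^ 40 := pow_le_pow_left₀ r_pos.le r_lt.le 40
      _ ≤ 0.05 := by norm_num
  have hMP1 : 1 + 0.9 * r ^ n ≤ M / P := by
    rw [hrn, le_div_iff₀ hP0]
    have : (1 + 0.9 * (S / P)) * P = P + 0.9 * S := by field_simp
    linarith
  have hMP2 : M / P ≤ 1 + 1.05 * r ^ n := by
    rw [hrn, div_le_iff₀ hP0]
    have : (1 + 1.05 * (S / P)) * P = P + 1.05 * S := by field_simp
    linarith
  rw [hlog]
  constructor
  · have h1 : 1 - (M / P)⁻¹ ≤ log (M / P) := Real.one_sub_inv_le_log_of_pos (by positivity)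
    have h2 : (M / P)⁻¹ ≤ (1 + 0.9 * r ^ n)⁻¹ := by
      apply inv_anti₀ (by positivity) hMP1
    have h3 : (1 + 0.9 * r ^ n)⁻¹ ≤ 1 - 0.85 * r ^ n := by
      rw [inv_le_iff_one_le_mul₀ (by positivity)]
      nlinarith
    linarith
  · have h1 : log (M / P) ≤ M / P - 1 := Real.log_le_sub_one_of_pos (by positivity)
    linarith

lemma log7_ge : (1.9 : ℝ) ≤ log 7 := by
  rw [Real.le_log_iff_exp_le (by norm_num)]
  have h : exp (1.9:ℝ) ^ 10 ≤ 7 ^ 10 := by
    rw [← Real.exp_nat_mul]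
    have : ((10:ℕ):ℝ) * 1.9 = ((19:ℕ):ℝ) * 1 := by norm_num
    rw [this, Real.exp_nat_mul]
    calc (exp 1 : ℝ) ^ 19 ≤ (2.7182818286 : ℝ) ^ 19 :=
        pow_le_pow_left₀ (Real.exp_pos 1).le Real.exp_one_lt_d9.le 19
      _ ≤ 7 ^ 10 := by norm_num
  exact le_of_pow_le_pow_left₀ (by norm_num) (by norm_num) h

lemma pow_big (n : ℕ) (hn : 11 ≤ n) : (3 * n : ℝ) ≤ (7 / 5 : ℝ) ^ n := by
  induction n, hn using Nat.le_induction with
  | base => norm_num
  | succ n hn ih =>
    have hn' : (11:ℝ) ≤ n := by exact_mod_cast hn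
    push_cast
    rw [pow_succ]
    nlinarith

/-- **Gap principle.** -/
lemma gap (n m n' m' : ℕ) (x : ℝ) (hn : 40 ≤ n) (hnn : n ≤ n') (hne : (n, m) ≠ (n', m'))
    (hx : 20 * x ≤ (√5) ^ n)
    (h : |π ^ n + (√5) ^ n - 7 ^ m - (exp 1) ^ m| ≤ x)
    (h' : |π ^ n' + (√5) ^ n' - 7 ^ m' - (exp 1) ^ m'| ≤ x) :
    (7 / 5 : ℝ) ^ n ≤ n' := by
  have hx' : 20 * x ≤ (√5) ^ n' := by
    refine hx.trans (pow_le_pow_right₀ ?_ hnn)
    have := sqrt5_gt; linarith
  obtain ⟨l1, u1⟩ := key n m x hn hx h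
  obtain ⟨l2, u2⟩ := key n' m' x (hn.trans hnn) hx' h'
  set d : ℝ := m * log 7 - n * log π with hd
  set d' : ℝ := m' * log 7 - n' * log π with hd'
  have hr0 : 0 < r ^ n := pow_pos r_pos n
  have hr0' : 0 < r ^ n' := pow_pos r_pos n'
  have hr1 : r < 0.712 := r_lt
  have hrr : r ^ n' ≤ r ^ n := pow_le_pow_of_le_one r_pos.le (by linarith) hnn
  have hrs : r ^ n ≤ 0.05 := by
    calc r ^ n ≤ r ^ 40 := pow_le_pow_of_le_one r_pos.le (by linarith) hn
      _ ≤ 0.712 ^ 40 := pow_le_pow_left₀ r_pos.le r_lt.le 40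
      _ ≤ 0.05 := by norm_num
  have hl7 := log7_ge
  have hnR : (40:ℝ) ≤ n := by exact_mod_cast hn
  have hnnR : (n:ℝ) ≤ n' := by exact_mod_cast hnn
  have hdet : (n':ℝ) * d - n * d' = (((m:ℤ) * n' - m' * n : ℤ) : ℝ) * log 7 := by
    rw [hd, hd']; push_cast; ring
  by_cases hD : ((m:ℤ) * n' - m' * n : ℤ) = 0
  · exfalso
    rw [hD] at hdet
    simp only [Int.cast_zero, zero_mul] at hdet
    rcases hnn.lt_or_eq with hlt | heq
    · have h1 : r ^ n' ≤ r ^ (n + 1) := pow_le_pow_of_le_one r_pos.le (by linarith) hlt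
      have h2 : r ^ (n + 1) ≤ 0.712 * r ^ n := by
        rw [pow_succ]; nlinarith
      have hd0 : 0 < d := by nlinarith
      have h3 : (n:ℝ) * d ≤ n * d' := by nlinarith
      have h4 : d ≤ d' := le_of_mul_le_mul_left h3 (by linarith)
      nlinarith
    · subst heq
      have h1 : (m:ℤ) * n = m' * n := by linarith
      have h2 : (m:ℤ) = m' := by
        have : (n:ℤ) ≠ 0 := by exact_mod_cast (by omega : n ≠ 0)
        exact mul_right_cancel₀ this h1
      apply hne
      have : m = m' := by exact_mod_cast h2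
      rw [this]
  · have h1 : (1:ℝ) ≤ |(((m:ℤ) * n' - m' * n : ℤ) : ℝ)| := by
      rw [← Int.cast_abs]
      exact_mod_cast Int.one_le_abs hD
    have h2 : log 7 ≤ |(n':ℝ) * d - n * d'| := by
      rw [hdet, abs_mul, abs_of_pos (by linarith : 0 < log 7)]
      nlinarith
    have hd0 : 0 < d := by nlinarith
    have hd0' : 0 < d' := by nlinarith
    have h3 : |(n':ℝ) * d - n * d'| ≤ n' * (1.05 * r ^ n) := by
      rw [abs_le]
      constructor
      · have e1 : (n:ℝ) * d' ≤ n' * (1.05 * r ^ n) := by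
          have : d' ≤ 1.05 * r ^ n := by linarith
          calc (n:ℝ) * d' ≤ n' * d' := by gcongr
            _ ≤ n' * (1.05 * r ^ n) := by gcongr
        have e2 : 0 ≤ (n':ℝ) * d := by positivity
        linarith
      · have e1 : (n':ℝ) * d ≤ n' * (1.05 * r ^ n) := by gcongr
        have e2 : 0 ≤ (n:ℝ) * d' := by positivity
        linarith
    have h4 : (1:ℝ) ≤ n' * r ^ n := by nlinarith
    have h5 : (7 / 5 : ℝ) ^ n * r ^ n ≤ 1 := by
      rw [← mul_pow]
      apply pow_le_one₀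
      · have := r_pos; positivity
      · have := r_lt'; linarith
    have h6 : (7 / 5 : ℝ) ^ n * r ^ n ≤ n' * r ^ n := h5.trans h4
    exact le_of_mul_le_mul_right h6 hr0

/-! ### counting along the gap principle -/

lemma chain (k : ℕ) : ∀ S : Finset ℕ, (∀ a ∈ S, 40 ≤ a) →
    (∀ a ∈ S, ∀ b ∈ S, a < b → (7 / 5 : ℝ) ^ a ≤ b) → (∀ a ∈ S, a ≤ tower k) →
    S.card ≤ 2 * k := by
  induction k with
  | zero =>
    intro S h40 _ ht
    have : S = ∅ := by
      rw [Finset.eq_empty_iff_forall_notMem]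
      intro a ha
      have h1 := h40 a ha
      have h2 := ht a ha
      simp only [tower] at h2
      omega
    simp [this]
  | succ k ih =>
    intro S h40 hg ht
    by_cases hc : S.card ≤ 2
    · omega
    · have hne : S.Nonempty := by
        rw [← Finset.card_pos]; omega
      set c := S.max' hne with hcdef
      have hcS : c ∈ S := Finset.max'_mem S hne
      have hcard1 : (S.erase c).card = S.card - 1 := Finset.card_erase_of_mem hcS
      have hne1 : (S.erase c).Nonempty := by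
        rw [← Finset.card_pos]; omega
      set b := (S.erase c).max' hne1 with hbdef
      have hbS : b ∈ S.erase c := Finset.max'_mem _ hne1
      have hcard2 : ((S.erase c).erase b).card = (S.erase c).card - 1 :=
        Finset.card_erase_of_mem hbS
      have hbS' : b ∈ S := Finset.mem_of_mem_erase hbS
      have hbc : b < c := by
        apply lt_of_le_of_ne
        · exact Finset.le_max' S b hbS'
        · exact Finset.ne_of_mem_erase hbS
      have key := ih ((S.erase c).erase b)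
        (fun a ha => h40 a (Finset.mem_of_mem_erase (Finset.mem_of_mem_erase ha)))
        (fun a ha a' ha' => hg a (Finset.mem_of_mem_erase (Finset.mem_of_mem_erase ha)) a'
          (Finset.mem_of_mem_erase (Finset.mem_of_mem_erase ha')))
        (by
          intro a ha
          have haS1 : a ∈ S.erase c := Finset.mem_of_mem_erase ha
          have haS : a ∈ S := Finset.mem_of_mem_erase haS1
          have hab : a < b := by
            apply lt_of_le_of_ne
            · exact Finset.le_max' _ a haS1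
            · exact Finset.ne_of_mem_erase ha
          have g1 := hg a haS b hbS' hab
          have g2 := hg b hbS' c hcS hbc
          have a40 := h40 a haS
          have g3 : (3 * a : ℝ) ≤ b := (pow_big a (by omega)).trans g1
          have g3' : 3 * a ≤ b := by exact_mod_cast g3
          have g4 : (2:ℝ) ^ a ≤ c := by
            calc (2:ℝ) ^ a ≤ ((7 / 5 : ℝ) ^ 3) ^ a :=
                pow_le_pow_left₀ (by norm_num) (by norm_num) a
              _ = (7 / 5 : ℝ) ^ (3 * a) := by rw [pow_mul]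
              _ ≤ (7 / 5 : ℝ) ^ b := pow_le_pow_right₀ (by norm_num) g3'
              _ ≤ c := g2
          have g5 : 2 ^ a ≤ c := by exact_mod_cast g4
          have g6 : c ≤ 2 ^ tower k := ht c hcS
          exact (Nat.pow_le_pow_iff_right (by norm_num)).mp (g5.trans g6))
      omega

/-! ### the bulk -/

lemma five_log (x : ℝ) (hx : 2 ≤ x) (n : ℕ) (hn : 100 * log x ≤ n) :
    40 ≤ n ∧ 20 * x ≤ (√5) ^ n := by
  have hl2 : (0.69:ℝ) < log 2 := by have := Real.log_two_gt_d9; linarith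
  have hl2' : log 2 < (0.7:ℝ) := by have := Real.log_two_lt_d9; linarith
  have hlx : log 2 ≤ log x := Real.log_le_log (by norm_num) hx
  have hn40 : (69:ℝ) < n := by linarith
  constructor
  · have : (69:ℕ) < n := by exact_mod_cast hn40
    omega
  · have h50 : (0:ℝ) < √5 := Real.sqrt_pos.mpr (by norm_num)
    have hx0 : 0 < x := by linarith
    rw [← Real.log_le_log_iff (by positivity) (by positivity), Real.log_pow,
      Real.log_mul (by norm_num) hx0.ne']
    have h20 : log 20 ≤ 5 * log 2 := by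
      have : (5:ℝ) * log 2 = log (2 ^ 5) := by rw [Real.log_pow]; norm_num
      rw [this]
      exact Real.log_le_log (by norm_num) (by norm_num)
    have hs5 : log 2 ≤ log (√5) := by
      apply Real.log_le_log (by norm_num)
      have := sqrt5_gt; linarith
    have h1 : (n:ℝ) * log 2 ≤ n * log (√5) := by gcongr
    have h2 : (100 * log x) * log 2 ≤ n * log 2 := by gcongr
    nlinarith

lemma count_le (y c : ℝ) (hc : 0 < c) (hy : 0 ≤ y) (S : Set ℕ)
    (hS : ∀ n ∈ S, 1 ≤ n ∧ (n:ℝ) * c ≤ y) : S.Finite ∧ (S.ncard : ℝ) ≤ y / c := by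
  have hsub : S ⊆ ↑(Finset.Icc 1 ⌊y / c⌋₊) := by
    intro n hn
    obtain ⟨h1, h2⟩ := hS n hn
    simp only [Finset.coe_Icc, Set.mem_Icc]
    refine ⟨h1, Nat.le_floor ?_⟩
    rw [le_div_iff₀ hc]; exact h2
  have hfin : S.Finite := (Finset.finite_toSet _).subset hsub
  refine ⟨hfin, ?_⟩
  have h1 := Set.ncard_le_ncard hsub (Finset.finite_toSet _)
  rw [Set.ncard_coe_finset, Nat.card_Icc] at h1
  have h2 : (⌊y / c⌋₊ : ℝ) ≤ y / c := Nat.floor_le (by positivity)
  have h3 : S.ncard ≤ ⌊y / c⌋₊ := by omega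
  have h4 : (S.ncard : ℝ) ≤ (⌊y / c⌋₊ : ℝ) := by exact_mod_cast h3
  linarith

lemma count_ge (y c : ℝ) (hc : 0 < c) (S : Set ℕ) (hf : S.Finite)
    (hS : ∀ n : ℕ, 1 ≤ n → (n:ℝ) * c ≤ y → n ∈ S) : y / c - 1 ≤ (S.ncard : ℝ) := by
  have hsub : (↑(Finset.Icc 1 ⌊y / c⌋₊) : Set ℕ) ⊆ S := by
    intro n hn
    simp only [Finset.coe_Icc, Set.mem_Icc] at hn
    apply hS n hn.1
    rw [← le_div_iff₀ hc]
    by_cases h0 : 0 ≤ y / c
    · exact (Nat.le_floor_iff h0).mp hn.2
    · have : ⌊y / c⌋₊ = 0 := Nat.floor_of_nonpos (by linarith)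
      omega
  have h1 := Set.ncard_le_ncard hsub hf
  rw [Set.ncard_coe_finset, Nat.card_Icc] at h1
  have h2 : y / c < (⌊y / c⌋₊ : ℝ) + 1 := Nat.lt_floor_add_one _
  have h3 : ((⌊y / c⌋₊ + 1 - 1 : ℕ) : ℝ) ≤ (S.ncard : ℝ) := by exact_mod_cast h1
  simp only [Nat.add_sub_cancel] at h3
  linarith

/-- the first coordinates of the bulk -/
def SA (x : ℝ) : Set ℕ := {n | 1 ≤ n ∧ π ^ n + (√5) ^ n ≤ x}

/-- the second coordinates of the bulk -/
def SB (x : ℝ) : Set ℕ := {m | 1 ≤ m ∧ (7:ℝ) ^ m + (exp 1) ^ m ≤ x}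

lemma log_pi_ge : (1:ℝ) ≤ log π := by
  rw [Real.le_log_iff_exp_le Real.pi_pos]
  have := Real.exp_one_lt_d9
  have := Real.pi_gt_three
  linarith

lemma SA_bounds (x : ℝ) (hx : 2 ≤ x) : (SA x).Finite ∧ ((SA x).ncard : ℝ) ≤ log x / log π ∧
    log x / log π - 2 ≤ ((SA x).ncard : ℝ) := by
  have hlp := log_pi_ge
  have hl2' : log 2 < (0.7:ℝ) := by have := Real.log_two_lt_d9; linarith
  have hl2 : (0.69:ℝ) < log 2 := by have := Real.log_two_gt_d9; linarith
  have hlx : log 2 ≤ log x := Real.log_le_log (by norm_num) hx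
  have h50 : (0:ℝ) < √5 := Real.sqrt_pos.mpr (by norm_num)
  have hx0 : 0 < x := by linarith
  have h1 := count_le (log x) (log π) (by linarith) (by linarith) (SA x) (by
    intro n hn
    refine ⟨hn.1, ?_⟩
    rw [← Real.log_pow]
    apply Real.log_le_log (pow_pos Real.pi_pos n)
    have := hn.2
    have : 0 < (√5) ^ n := pow_pos h50 n
    linarith)
  refine ⟨h1.1, h1.2, ?_⟩
  have h2 := count_ge (log x - log 2) (log π) (by linarith) (SA x) h1.1 (by
    intro n hn hle
    refine ⟨hn, ?_⟩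
    have e1 : (√5) ^ n ≤ π ^ n := by
      apply pow_le_pow_left₀ h50.le
      have := sqrt5_lt
      have := Real.pi_gt_three
      linarith
    have e2 : π ^ n ≤ x / 2 := by
      rw [← Real.log_le_log_iff (pow_pos Real.pi_pos n) (by positivity), Real.log_pow,
        Real.log_div hx0.ne' (by norm_num)]
      exact hle
    linarith)
  have h3 : log 2 / log π ≤ 1 := by
    rw [div_le_one (by linarith)]; linarith
  rw [sub_div] at h2
  linarith

lemma SB_bounds (x : ℝ) (hx : 2 ≤ x) : (SB x).Finite ∧ ((SB x).ncard : ℝ) ≤ log x / log 7 ∧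
    log x / log 7 - 2 ≤ ((SB x).ncard : ℝ) := by
  have hlp := log7_ge
  have hl2' : log 2 < (0.7:ℝ) := by have := Real.log_two_lt_d9; linarith
  have hl2 : (0.69:ℝ) < log 2 := by have := Real.log_two_gt_d9; linarith
  have hlx : log 2 ≤ log x := Real.log_le_log (by norm_num) hx
  have hx0 : 0 < x := by linarith
  have he : (exp 1 : ℝ) ≤ 7 := by have := Real.exp_one_lt_d9; linarith
  have h1 := count_le (log x) (log 7) (by linarith) (by linarith) (SB x) (by
    intro n hn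
    refine ⟨hn.1, ?_⟩
    rw [← Real.log_pow]
    apply Real.log_le_log (by positivity)
    have := hn.2
    have : 0 < (exp 1 : ℝ) ^ n := pow_pos (Real.exp_pos 1) n
    linarith)
  refine ⟨h1.1, h1.2, ?_⟩
  have h2 := count_ge (log x - log 2) (log 7) (by linarith) (SB x) h1.1 (by
    intro n hn hle
    refine ⟨hn, ?_⟩
    have e1 : (exp 1 : ℝ) ^ n ≤ 7 ^ n := pow_le_pow_left₀ (Real.exp_pos 1).le he n
    have e2 : (7:ℝ) ^ n ≤ x / 2 := by
      rw [← Real.log_le_log_iff (by positivity) (by positivity), Real.log_pow,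
        Real.log_div hx0.ne' (by norm_num)]
      exact hle
    linarith)
  have h3 : log 2 / log 7 ≤ 1 := by
    rw [div_le_one (by linarith)]; linarith
  rw [sub_div] at h2
  linarith

lemma A_step (n n' : ℕ) (h : n < n') :
    2 * (π ^ n + (√5) ^ n) < π ^ n' + (√5) ^ n' := by
  have h50 : (0:ℝ) < √5 := Real.sqrt_pos.mpr (by norm_num)
  have h1 : π ^ (n + 1) ≤ π ^ n' :=
    pow_le_pow_right₀ (by have := Real.pi_gt_three; linarith) h
  have h2 : (√5) ^ (n + 1) ≤ (√5) ^ n' :=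
    pow_le_pow_right₀ (by have := sqrt5_gt; linarith) h
  have h3 : 0 < π ^ n := pow_pos Real.pi_pos n
  have h4 : 0 < (√5) ^ n := pow_pos h50 n
  rw [pow_succ] at h1 h2
  have := Real.pi_gt_three
  have := sqrt5_gt
  nlinarith

lemma B_step (m m' : ℕ) (_hm : 1 ≤ m) (h : m < m') :
    3 * ((7:ℝ) ^ m + (exp 1) ^ m) < 7 ^ m' + (exp 1) ^ m' := by
  have h1 : (7:ℝ) ^ (m + 1) ≤ 7 ^ m' := pow_le_pow_right₀ (by norm_num) h
  have h0 : (1:ℝ) ≤ exp 1 := by have := Real.exp_one_gt_d9; linarith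
  have h2 : (exp 1 : ℝ) ^ (m + 1) ≤ (exp 1) ^ m' := pow_le_pow_right₀ h0 h
  have h3 : (exp 1 : ℝ) ^ m ≤ 7 ^ m :=
    pow_le_pow_left₀ (Real.exp_pos 1).le (by have := Real.exp_one_lt_d9; linarith) m
  have h4 : 0 < (exp 1 : ℝ) ^ m := pow_pos (Real.exp_pos 1) m
  rw [pow_succ] at h1 h2
  have := Real.exp_one_gt_d9
  nlinarith

theorem result : ∃ C : ℝ, 0 < C ∧
    (∀ x : ℝ, 2 ≤ x → ∀ p ∈ pairs x, ∀ q ∈ pairs x, p ≠ q → C * log x ≤ p.1 → p.1 ≤ q.1 →
      (7 / 5 : ℝ) ^ p.1 ≤ q.1) ∧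
    (∀ x : ℝ, 2 ≤ x → ∀ k : ℕ, C * log x ≤ tower k →
      {p ∈ pairs x | p.1 ≤ tower k}.Finite ∧
      |({p ∈ pairs x | p.1 ≤ tower k}.ncard : ℝ) - (log x) ^ 2 / (log π * log 7)| ≤
        C * (log x + k)) := by
  have gapx : ∀ x : ℝ, 2 ≤ x → ∀ p ∈ pairs x, ∀ q ∈ pairs x, p ≠ q → 100 * log x ≤ p.1 →
      p.1 ≤ q.1 → (7 / 5 : ℝ) ^ p.1 ≤ q.1 := by
    intro x hx p hp q hq hne hl hle
    obtain ⟨h40, h20⟩ := five_log x hx p.1 hl
    exact gap p.1 p.2 q.1 q.2 x h40 hle (by simpa using hne) h20 hp.2.2 hq.2.2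
  have hlogpos : ∀ x : ℝ, 2 ≤ x → (0.69:ℝ) ≤ log x := by
    intro x hx
    have hl2 : (0.69:ℝ) < log 2 := by have := Real.log_two_gt_d9; linarith
    have hlx : log 2 ≤ log x := Real.log_le_log (by norm_num) hx
    linarith
  refine ⟨200, by norm_num, ?_, ?_⟩
  · intro x hx p hp q hq hne hl hle
    exact gapx x hx p hp q hq hne (by have := hlogpos x hx; linarith) hle
  · intro x hx k hk
    have hL := hlogpos x hx
    set L := log x with hLdef
    set T := tower k with hT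
    obtain ⟨fA, uA, lA⟩ := SA_bounds x hx
    obtain ⟨fB, uB, lB⟩ := SB_bounds x hx
    have hlp := log_pi_ge
    have hl7 := log7_ge
    have hx0 : (0:ℝ) < x := by linarith
    set F : Set (ℕ × ℕ) := {p ∈ pairs x | p.1 ≤ T} with hF
    set G0 : Set (ℕ × ℕ) := SA x ×ˢ SB x with hG0
    set G1 : Set (ℕ × ℕ) := {n | 1 ≤ n ∧ x < π ^ n + (√5) ^ n ∧ π ^ n + (√5) ^ n ≤ 2 * x} ×ˢ
      SB x with hG1
    set G2 : Set (ℕ × ℕ) := {p ∈ pairs x | x < (7:ℝ) ^ p.2 + (exp 1) ^ p.2 ∧ (p.1 : ℝ) ≤ 100 * L}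
      with hG2
    set G3 : Set (ℕ × ℕ) := {p ∈ pairs x | 100 * L < p.1 ∧ p.1 ≤ T} with hG3
    -- G1
    set W : Set ℕ := {n | 1 ≤ n ∧ x < π ^ n + (√5) ^ n ∧ π ^ n + (√5) ^ n ≤ 2 * x} with hW
    have hWsub : W.Subsingleton := by
      intro a ha b hb
      rcases lt_trichotomy a b with h | h | h
      · have := A_step a b h
        have := ha.2.1; have := hb.2.2; linarith
      · exact h
      · have := A_step b a h
        have := hb.2.1; have := ha.2.2; linarith
    have hWfin : W.Finite := hWsub.finite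
    have hWcard : W.ncard ≤ 1 := (Set.ncard_le_one_iff hWfin).mpr (fun ha hb => hWsub ha hb)
    have fG1 : G1.Finite := hWfin.prod fB
    have cG1 : (G1.ncard : ℝ) ≤ L := by
      have e1 : G1.ncard = W.ncard * (SB x).ncard := Set.ncard_prod
      have e2 : G1.ncard ≤ (SB x).ncard := by
        rw [e1]
        calc W.ncard * (SB x).ncard ≤ 1 * (SB x).ncard := Nat.mul_le_mul_right _ hWcard
          _ = (SB x).ncard := one_mul _
      have e3 : L / log 7 ≤ L := div_le_self (by linarith) (by linarith)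
      have e4 : (G1.ncard : ℝ) ≤ ((SB x).ncard : ℝ) := by exact_mod_cast e2
      linarith
    -- G2
    have hmaps2 : ∀ p ∈ G2, p.1 ∈ {n : ℕ | 1 ≤ n ∧ (n:ℝ) * 1 ≤ 100 * L} := by
      intro p hp
      exact ⟨hp.1.1, by rw [mul_one]; exact hp.2.2⟩
    have hinj2 : Set.InjOn (Prod.fst : ℕ × ℕ → ℕ) G2 := by
      intro p hp q hq h
      have aux : ∀ p ∈ G2, ∀ q ∈ G2, p.1 = q.1 → ¬ p.2 < q.2 := by
        intro p hp q hq h hlt
        have s := B_step p.2 q.2 hp.1.2.1 hlt
        have a1 := abs_le.mp hp.1.2.2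
        have a2 := abs_le.mp hq.1.2.2
        rw [h] at a1
        have a3 := hp.2.1
        linarith [a1.1, a1.2, a2.1, a2.2]
      have h2 : p.2 = q.2 := by
        rcases lt_trichotomy p.2 q.2 with g | g | g
        · exact absurd g (aux p hp q hq h)
        · exact g
        · exact absurd g (aux q hq p hp h.symm)
      exact Prod.ext h h2
    have c2 := count_le (100 * L) 1 (by norm_num) (by linarith)
      {n : ℕ | 1 ≤ n ∧ (n:ℝ) * 1 ≤ 100 * L} (fun n hn => hn)
    have fG2 : G2.Finite := Set.Finite.of_finite_image (c2.1.subset (by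
      rintro _ ⟨p, hp, rfl⟩; exact hmaps2 p hp)) hinj2
    have cG2 : (G2.ncard : ℝ) ≤ 100 * L := by
      have e1 := Set.ncard_le_ncard_of_injOn (Prod.fst : ℕ × ℕ → ℕ) hmaps2 hinj2 c2.1
      have e2 : (G2.ncard : ℝ) ≤ (({n : ℕ | 1 ≤ n ∧ (n:ℝ) * 1 ≤ 100 * L}).ncard : ℝ) := by
        exact_mod_cast e1
      have e3 := c2.2
      linarith
    -- G3
    have hinj3 : Set.InjOn (Prod.fst : ℕ × ℕ → ℕ) G3 := by
      intro p hp q hq h
      by_contra hne
      have g := gapx x hx p hp.1 q hq.1 hne hp.2.1.le h.le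
      obtain ⟨h40, -⟩ := five_log x hx p.1 hp.2.1.le
      have g2 := pow_big p.1 (by omega)
      have h40' : (40:ℝ) ≤ p.1 := by exact_mod_cast h40
      rw [← h] at g
      linarith
    have fI3 : ((Prod.fst : ℕ × ℕ → ℕ) '' G3).Finite := by
      apply (Set.finite_Icc 0 T).subset
      rintro _ ⟨p, hp, rfl⟩
      exact ⟨Nat.zero_le _, hp.2.2⟩
    have fG3 : G3.Finite := Set.Finite.of_finite_image fI3 hinj3
    have cG3 : G3.ncard ≤ 2 * k := by
      have e1 : G3.ncard = ((Prod.fst : ℕ × ℕ → ℕ) '' G3).ncard :=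
        hinj3.ncard_image.symm
      rw [e1, Set.ncard_eq_toFinset_card _ fI3]
      apply chain k
      · intro a ha
        rw [Set.Finite.mem_toFinset] at ha
        obtain ⟨p, hp, rfl⟩ := ha
        exact (five_log x hx p.1 hp.2.1.le).1
      · intro a ha b hb hab
        rw [Set.Finite.mem_toFinset] at ha hb
        obtain ⟨p, hp, rfl⟩ := ha
        obtain ⟨q, hq, rfl⟩ := hb
        exact gapx x hx p hp.1 q hq.1 (by rintro rfl; exact lt_irrefl _ hab) hp.2.1.le hab.le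
      · intro a ha
        rw [Set.Finite.mem_toFinset] at ha
        obtain ⟨p, hp, rfl⟩ := ha
        exact hp.2.2
    -- inclusions
    have h50 : (0:ℝ) < √5 := Real.sqrt_pos.mpr (by norm_num)
    have hsub0 : G0 ⊆ F := by
      rintro ⟨n, m⟩ ⟨hn, hm⟩
      refine ⟨⟨hn.1, hm.1, ?_⟩, ?_⟩
      · have a1 := hn.2
        have a2 := hm.2
        have a3 : 0 < π ^ n := pow_pos Real.pi_pos n
        have a4 : 0 < (√5) ^ n := pow_pos h50 n
        have a5 : 0 < (exp 1 : ℝ) ^ m := pow_pos (Real.exp_pos 1) m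
        have a6 : 0 < (7:ℝ) ^ m := by positivity
        simp only at a1 a2 ⊢
        rw [abs_le]
        constructor <;> linarith
      · have a1 : (n:ℝ) * log π ≤ L := by
          rw [← Real.log_pow]
          apply Real.log_le_log (pow_pos Real.pi_pos n)
          have := hn.2
          have : 0 < (√5) ^ n := pow_pos h50 n
          simp only at *
          linarith
        have a2 : (n:ℝ) ≤ T := by
          have : (0:ℝ) ≤ n := Nat.cast_nonneg n
          nlinarith
        exact_mod_cast a2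
    have hsubF : F ⊆ G0 ∪ (G1 ∪ (G2 ∪ G3)) := by
      rintro ⟨n, m⟩ ⟨⟨h1, h2, h3⟩, h4⟩
      simp only at h1 h2 h3 h4
      have a := abs_le.mp h3
      by_cases hB : (7:ℝ) ^ m + (exp 1) ^ m ≤ x
      · by_cases hA : π ^ n + (√5) ^ n ≤ x
        · left; exact ⟨⟨h1, hA⟩, ⟨h2, hB⟩⟩
        · right; left
          push Not at hA
          exact ⟨⟨h1, hA, by linarith [a.2]⟩, ⟨h2, hB⟩⟩
      · push Not at hB
        right; right
        by_cases hn : (n:ℝ) ≤ 100 * L
        · left; exact ⟨⟨h1, h2, h3⟩, hB, hn⟩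
        · push Not at hn
          right; exact ⟨⟨h1, h2, h3⟩, hn, h4⟩
    have fG0 : G0.Finite := fA.prod fB
    have fU : (G0 ∪ (G1 ∪ (G2 ∪ G3))).Finite := fG0.union (fG1.union (fG2.union fG3))
    have fF : F.Finite := fU.subset hsubF
    refine ⟨fF, ?_⟩
    have c0 : (G0.ncard : ℝ) = ((SA x).ncard : ℝ) * ((SB x).ncard : ℝ) := by
      rw [hG0, Set.ncard_prod]; push_cast; ring
    have cl : (G0.ncard : ℝ) ≤ F.ncard := by exact_mod_cast Set.ncard_le_ncard hsub0 fF
    have cu : (F.ncard : ℝ) ≤ G0.ncard + (L + (100 * L + 2 * k)) := by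
      have e1 : F.ncard ≤ (G0 ∪ (G1 ∪ (G2 ∪ G3))).ncard := Set.ncard_le_ncard hsubF fU
      have e2 := Set.ncard_union_le G0 (G1 ∪ (G2 ∪ G3))
      have e3 := Set.ncard_union_le G1 (G2 ∪ G3)
      have e4 := Set.ncard_union_le G2 G3
      have e5 : F.ncard ≤ G0.ncard + (G1.ncard + (G2.ncard + G3.ncard)) := by omega
      have e6 : (F.ncard : ℝ) ≤ G0.ncard + (G1.ncard + (G2.ncard + G3.ncard)) := by
        exact_mod_cast e5
      have e7 : (G3.ncard : ℝ) ≤ 2 * k := by exact_mod_cast cG3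
      linarith
    set a : ℝ := ((SA x).ncard : ℝ) with ha
    set b : ℝ := ((SB x).ncard : ℝ) with hb
    have a0 : 0 ≤ a := Nat.cast_nonneg _
    have b0 : 0 ≤ b := Nat.cast_nonneg _
    set u : ℝ := L / log π with hu
    set v : ℝ := L / log 7 with hv
    have hmain : L ^ 2 / (log π * log 7) = u * v := by
      rw [hu, hv, div_mul_div_comm, sq]
    have hu1 : u ≤ L := div_le_self (by linarith) (by linarith)
    have hv1 : v ≤ L := div_le_self (by linarith) (by linarith)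
    have hu0 : 0 ≤ u := by rw [hu]; positivity
    have hv0 : 0 ≤ v := by rw [hv]; positivity
    have hab1 : a * b ≤ u * v := mul_le_mul uA uB b0 hu0
    have hab2 : u * v - 4 * L ≤ a * b := by
      have e1 : u * v - a * b = u * (v - b) + b * (u - a) := by ring
      have e2 : u * (v - b) ≤ u * 2 := mul_le_mul_of_nonneg_left (by linarith) hu0
      have e3 : b * (u - a) ≤ b * 2 := mul_le_mul_of_nonneg_left (by linarith) b0
      linarith
    have hk0 : (0:ℝ) ≤ k := Nat.cast_nonneg k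
    rw [hmain, abs_le]
    constructor
    · linarith
    · linarith

end Pool.Agent.Results.MP_3c55d5_nt.TruncatedAsymptotic
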